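import Pool.Agent.Helper32_Men.Small

/-!
# Squad MEN, module MILS: the successor case on the Miller side
-/

open MeasureTheory Set

namespace Pool.Agent.Men.RR.H32

theorem mils (hRel : RelStmt) (hSt : StStmt) (hSeqp : SeqpStmt) : MilsStmt := by
  classical
  intro Λ _ _ _ N δ W 𝓑 P1 b1 hPre
  have hIio : IsLowerSet (Iio δ) := isLowerSet_Iio δ
  have hIic : IsLowerSet (Iic δ) := isLowerSet_Iic δ
  have hN : Clo N := hPre.clo
  have : Countable N := hN.count.to_subtype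
  obtain ⟨c, b, ⟨P, hP1, n0, σ0, hInv⟩, hc0, hcm, hcb, hinf, hd⟩ :=
    hSeqp Λ N (Iic δ) (fun _ => δ) W 𝓑 P1 b1 hIic hPre
  -- the dense sets
  set Ef : N × ℕ × Node × ℕ × ℕ → Set (Cond ℕ Λ) := fun t =>
    Est N (Iic δ) (fun _ => δ) W c b t.1.1 t.2.1 t.2.2.1 t.2.2.2.1 t.2.2.2.2 with hEf
  obtain ⟨hG0, hR⟩ := hRel Λ N hN (Set.range Ef) (Set.countable_range Ef)
  obtain ⟨p0, G, hG, -, hPG⟩ := hR ∅ (Iio δ) (fun _ _ _ h => h.elim) hIio (Set.empty_subset _)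
    _ _ hG0 (fun _ => ⟨P, hInv.mem⟩)
    (fun q => by
      by_cases h : (⟨P, hInv.mem⟩ : N) = q
      · simp [h]
      · simp [h])
    (fun _ _ _ => rfl)
    (fun y _ => ⟨hN.restr _ hInv.mem _ (fun _ _ _ h => h.elim), Cond.restr_below _ _⟩)
  -- the tree at the coordinate `δ`
  obtain ⟨p', St, hB, -, hSt0, -, -, hStb⟩ := hSt Λ (N × ℕ × Node × ℕ) δ p0 hG.below
    (fun S => S.1.1)
    (fun y => {S | Inv N (Iic δ) W S.1.1 δ S.2.2.1 (↑(c S.2.2.2) ∪ b S.2.2.2) ∧ S.1.1 ≤ P1 ∧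
      S.1.1.restr (Iio δ) ∈ G y})
    (fun S S' => S.2.2.2 < S'.2.2.2 ∧ ∀ k ∈ c S'.2.2.2, S'.1.1.body ⊆ W k)
    (fun y y' h => by
      have := hG.dep y y' h
      simp only [this])
    (fun S => by
      by_cases h : Inv N (Iic δ) W S.1.1 δ S.2.2.1 (↑(c S.2.2.2) ∪ b S.2.2.2) ∧ S.1.1 ≤ P1
      · have : {y | S ∈ {S : N × ℕ × Node × ℕ |
            Inv N (Iic δ) W S.1.1 δ S.2.2.1 (↑(c S.2.2.2) ∪ b S.2.2.2) ∧ S.1.1 ≤ P1 ∧
            S.1.1.restr (Iio δ) ∈ G y}} = {y | S.1.1.restr (Iio δ) ∈ G y} := by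
          ext y
          simp [h.1, h.2]
        rw [this]
        exact hG.meas _
      · have : {y | S ∈ {S : N × ℕ × Node × ℕ |
            Inv N (Iic δ) W S.1.1 δ S.2.2.1 (↑(c S.2.2.2) ∪ b S.2.2.2) ∧ S.1.1 ≤ P1 ∧
            S.1.1.restr (Iio δ) ∈ G y}} = ∅ := by
          ext y
          simp only [Set.mem_ofPred_eq, Set.mem_empty_iff_false, iff_false]
          rintro ⟨h1, h2, _⟩
          exact h ⟨h1, h2⟩
        rw [this]
        exact MeasurableSet.empty)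
    (fun y hy S hS => by
      have := hG.pt y hy _ hS.2.2
      rwa [Cond.restr_body] at this)
    (by
      rintro y hy ⟨⟨R, hR⟩, n, σ, m⟩ ⟨hI, hle, hGy⟩
      simp only at hI hle hGy ⊢
      have hon : y ∈ R.On (Iio δ) := by
        have := hG.pt y hy _ hGy
        rwa [Cond.restr_body] at this
      obtain ⟨y', hy', hyy⟩ := R.exists_ext _ hIio y hon
      have hTT : R.T δ y' = R.T δ y := R.T_congr fun j hj => hyy j hj
      refine ⟨σ, ?_, fun a0 => ?_⟩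
      · have := (hI.stem y' hy').2.1
        rwa [hTT] at this
      · obtain ⟨g, hg, hgR, hgE, hgG⟩ := hG.gen R hR y hy hGy
          (Est N (Iic δ) (fun _ => δ) W c b R n σ m a0) ⟨(⟨R, hR⟩, n, σ, m, a0), rfl⟩
          (hd R hle n σ m hI a0)
        obtain ⟨a, ha, hgT, m', hm', n', hn', σ', hI', hW⟩ := hgE
        refine ⟨a, ha, (⟨g, hg⟩, n', σ', m'), ⟨hI', hgR.trans hle, hgG⟩, ⟨hm', hW⟩, hgR, ?_⟩
        have hong : y ∈ g.On (Iio δ) := by
          have := hG.pt y hy _ hgG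
          rwa [Cond.restr_body] at this
        obtain ⟨z, hz, hzz⟩ := g.exists_ext _ hIio y hong
        have h1 := hgT z hz
        rw [g.T_congr (y' := y) (fun j hj => hzz j hj),
          R.T_congr (y' := y) (fun j hj => hzz j hj)] at h1
        exact h1)
    (fun _ => (⟨P, hInv.mem⟩, n0, σ0, 0))
    (fun q => by
      by_cases h : ((⟨P, hInv.mem⟩, n0, σ0, 0) : N × ℕ × Node × ℕ) = q
      · simp [h]
      · simp [h])
    (fun _ _ _ => rfl)
    (fun y hy => ⟨hInv, hP1, hPG y hy⟩)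
  have hm : ∀ y ∈ p'.body, ∀ n, n ≤ (St n y).2.2.2 := by
    intro y hy n
    induction n with
    | zero => exact Nat.zero_le _
    | succ n ih => exact lt_of_le_of_lt ih (hStb y hy n).2.1.1
  have hbody : ∀ y ∈ p'.body, ∀ n, y ∈ (St n y).1.1.body := by
    intro y hy n
    rw [(hStb y hy n).1.1.below.body_eq]
    exact (hStb y hy n).2.2.2
  refine ⟨p', fun y hy => (hStb y hy 0).1.2.1 (hbody y hy 0), hB, ⋃ m, (↑(c m) : Set ℕ),
    Set.iUnion_subset hcb, hinf, ?_⟩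
  intro k hk y hy
  obtain ⟨m0, hm0⟩ := Set.mem_iUnion.1 hk
  refine (hStb y hy m0).2.1.2 k ?_ (hbody y hy _)
  exact hcm ((Nat.le_succ m0).trans (hm y hy (m0 + 1))) hm0

end Pool.Agent.Men.RR.H32
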