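import Pool.Agent.Helper32_Men.Small

/-!
# Squad MEN, module REL1: the successor step of the extension theorem
-/

open MeasureTheory Set

namespace Pool.Agent.Men.RR.H32

section
variable {Λ : Type} [LinearOrder Λ] [WellFoundedLT Λ]

/-- The conditions of the family `N` on the coordinates up to `δ`. -/
def Pos (N : Set (Cond ℕ Λ)) (δ : Λ) : Type := {r : Cond ℕ Λ // r ∈ N ∧ r.Below (Iic δ)}

/-- The relation between successive states. -/
def SRel (N : Set (Cond ℕ Λ)) (𝒟 : Set (Set (Cond ℕ Λ))) (δ : Λ)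
    (e : ℕ → Option ((Cond ℕ Λ) × Set (Cond ℕ Λ))) (S S' : Pos N δ × ℕ) : Prop :=
  S'.2 = S.2 + 1 ∧ ∀ P E, e S.2 = some (P, E) → P ∈ N → E ∈ 𝒟 → S.1.1 ≤ P.restr (Iic δ) →
    RDense N (Iic δ) E P → ∃ g ∈ N, g ≤ P ∧ g ∈ E ∧ S'.1.1 ≤ g.restr (Iic δ)

theorem step (N : Set (Cond ℕ Λ)) (hN : Clo N) (𝒟 : Set (Set (Cond ℕ Λ))) (δ : Λ)
    (e : ℕ → Option ((Cond ℕ Λ) × Set (Cond ℕ Λ))) {p : Cond ℕ Λ} {G : Pt ℕ Λ → Set (Cond ℕ Λ)}
    (hG : Gen N 𝒟 (Iio δ) p G) {y : Pt ℕ Λ} (hy : y ∈ p.body) (S : Pos N δ × ℕ)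
    (hS : S.1.1.restr (Iio δ) ∈ G y) :
    ∃ τ ∈ S.1.1.T δ y, ∀ m : ℕ, ∃ a ≥ m, ∃ S' : Pos N δ × ℕ, S'.1.1.restr (Iio δ) ∈ G y ∧
      SRel N 𝒟 δ e S S' ∧ S'.1.1 ≤ S.1.1 ∧ S'.1.1.T δ y ⊆ sub (S.1.1.T δ y) (τ ++ [a]) := by
  classical
  obtain ⟨⟨r, hrN, hrB⟩, k⟩ := S
  simp only at hS ⊢
  have hgood : Supf (r.T δ y) := r.good δ y
  obtain ⟨τ, hτ, -, hinf⟩ := hgood.split [] hgood.nil
  refine ⟨τ, hτ, fun m => ?_⟩
  obtain ⟨a, ha, ham⟩ := hinf.exists_gt m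
  refine ⟨a, ham.le, ?_⟩
  have hIio : IsLowerSet (Iio δ) := isLowerSet_Iio δ
  have hIic : IsLowerSet (Iic δ) := isLowerSet_Iic δ
  have hsub : (Iio δ : Set Λ) ⊆ Iic δ := Iio_subset_Iic_self
  have hδ : δ ∉ (Iio δ : Set Λ) := lt_irrefl δ
  set ra : Cond ℕ Λ := r.node δ (τ ++ [a]) with hra
  have raN : ra ∈ N := hN.node r hrN δ _
  have raB : ra.Below (Iic δ) := Cond.node_below hrB (self_mem_Iic) _
  have rale : ra ≤ r := r.node_le δ _
  have raT : ra.T δ y = sub (r.T δ y) (τ ++ [a]) := r.node_T ha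
  have raG : ra.restr (Iio δ) ∈ G y := by
    apply hG.up y _ hS _ (hN.restr _ raN _ hIio) (Cond.restr_below _ _)
    apply le_of_T_eq
    intro i y'
    rw [r.node_restr_T hδ]
  by_cases hact : ∃ P E, e k = some (P, E) ∧ P ∈ N ∧ E ∈ 𝒟 ∧ r ≤ P.restr (Iic δ) ∧
      RDense N (Iic δ) E P
  · obtain ⟨P, E, hek, hP, hE, hrP, hd⟩ := hact
    set P2 : Cond ℕ Λ := Cond.glue ra P (Iic δ) with hP2
    have P2N : P2 ∈ N := hN.glue ra raN P hP _ hIic
    have P2le : P2 ≤ P := Cond.glue_le_right raB (rale.trans hrP)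
    have P2G : P2.restr (Iio δ) ∈ G y := by
      apply hG.up y _ raG _ (hN.restr _ P2N _ hIio) (Cond.restr_below _ _)
      apply le_of_T_eq
      intro i y'
      by_cases hi : i ∈ (Iio δ : Set Λ)
      · rw [Cond.restr_T _ hi, Cond.restr_T _ hi, Cond.glue_T _ _ (hsub hi)]
      · rw [Cond.restr_T' _ hi, Cond.restr_T' _ hi]
    have P2d : RDense N (Iio δ) E P2 := by
      intro h hh hhB hhle
      set h' : Cond ℕ Λ := Cond.glue h ra (Iio δ) with hh'
      have h'N : h' ∈ N := hN.glue h hh ra raN _ hIio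
      have h'B : h'.Below (Iic δ) := Cond.glue_below hsub raB
      have hle : h ≤ ra.restr (Iio δ) := by
        refine hhle.trans (le_of_T_eq ?_)
        intro i y'
        by_cases hi : i ∈ (Iio δ : Set Λ)
        · rw [Cond.restr_T _ hi, Cond.restr_T _ hi, Cond.glue_T _ _ (hsub hi)]
        · rw [Cond.restr_T' _ hi, Cond.restr_T' _ hi]
      have h'le : h' ≤ ra := Cond.glue_le_right hhB hle
      obtain ⟨g, hg, hgle, hgE⟩ := hd h' h'N h'B ((h'le.trans rale).trans hrP)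
      refine ⟨g, hg, hgle.trans (le_of_T_eq ?_), hgE⟩
      intro i y'
      by_cases hi : i ∈ (Iio δ : Set Λ)
      · rw [Cond.glue_T _ _ (hsub hi), Cond.glue_T _ _ hi, Cond.glue_T _ _ hi]
      · rw [Cond.glue_T' h P2 hi]
        by_cases hi2 : i ∈ (Iic δ : Set Λ)
        · rw [Cond.glue_T _ _ hi2, Cond.glue_T' _ _ hi, Cond.glue_T _ _ hi2]
        · rw [Cond.glue_T' _ _ hi2, Cond.glue_T' _ _ hi2]
    obtain ⟨g, hg, hgP2, hgE, hgG⟩ := hG.gen P2 P2N y hy P2G E hE P2d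
    have gle : g.restr (Iic δ) ≤ ra :=
      (Cond.restr_mono hIic hgP2).trans (Cond.glue_restr_le raB)
    have gG : (g.restr (Iic δ)).restr (Iio δ) ∈ G y := by
      apply hG.up y _ hgG _ (hN.restr _ (hN.restr _ hg _ hIic) _ hIio) (Cond.restr_below _ _)
      apply le_of_T_eq
      intro i y'
      rw [restr_restr_T hsub]
    refine ⟨(⟨g.restr (Iic δ), hN.restr _ hg _ hIic, Cond.restr_below _ _⟩, k + 1), gG,
      ⟨rfl, ?_⟩, gle.trans rale, ?_⟩
    · intro P' E' he' _ _ _ _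
      have h1 : (P, E) = (P', E') := by
        simpa using hek.symm.trans he'
      simp only [Prod.mk.injEq] at h1
      obtain ⟨rfl, rfl⟩ := h1
      exact ⟨g, hg, hgP2.trans P2le, hgE, le_refl _⟩
    · have hyon : y ∈ (g.restr (Iic δ)).On (Iio δ) := by
        have := hG.pt y hy _ gG
        rwa [Cond.restr_body] at this
      have := Cond.T_subset_on gle δ hyon
      rw [raT] at this
      exact this
  · refine ⟨(⟨ra, raN, raB⟩, k + 1), raG, ⟨rfl, ?_⟩, rale, raT.le⟩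
    intro P E he h1 h2 h3 h4
    exact (hact ⟨P, E, he, h1, h2, h3, h4⟩).elim

end

theorem rel1 (hSeq : SeqStmt) (hSt : StStmt) : RelSucStmt := by
  classical
  intro Λ _ _ _ N hN 𝒟 h𝒟 δ p G hG r hr hrd hrG
  have hIio : IsLowerSet (Iio δ) := isLowerSet_Iio δ
  have hIic : IsLowerSet (Iic δ) := isLowerSet_Iic δ
  have hsub : (Iio δ : Set Λ) ⊆ Iic δ := Iio_subset_Iic_self
  have : Countable N := hN.count.to_subtype
  have : Countable 𝒟 := h𝒟.to_subtype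
  have : Countable (Pos N δ) := (hN.count.mono (fun _ h => h.1 : {r | r ∈ N ∧ r.Below (Iic δ)} ⊆ N)).to_subtype
  -- the tasks
  obtain ⟨e0, he0⟩ := hSeq (Option (N × 𝒟))
  set e : ℕ → Option ((Cond ℕ Λ) × Set (Cond ℕ Λ)) :=
    fun k => (e0 k).map fun t => (t.1.1, t.2.1) with he
  have heK : ∀ P ∈ N, ∀ E ∈ 𝒟, ∀ n, ∃ m ≥ n, e m = some (P, E) := by
    intro P hP E hE n
    obtain ⟨m, hm, h1⟩ := he0 (some (⟨P, hP⟩, ⟨E, hE⟩)) n
    exact ⟨m, hm, by simp [he, h1]⟩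
  -- the states
  set S0 : Pt ℕ Λ → Pos N δ × ℕ := fun y =>
    (⟨(r y).1.restr (Iic δ), hN.restr _ (r y).2 _ hIic, Cond.restr_below _ _⟩, 0) with hS0
  obtain ⟨p', St, hB, hT, hSt0, hStm, hStd, hStb⟩ := hSt Λ (Pos N δ × ℕ) δ p hG.below
    (fun S => S.1.1) (fun y => {S | S.1.1.restr (Iio δ) ∈ G y}) (SRel N 𝒟 δ e)
    (fun y y' h => by
      have := hG.dep y y' h
      simp only [this])
    (fun S => hG.meas _)
    (fun y hy S hS => by
      have := hG.pt y hy _ hS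
      rwa [Cond.restr_body] at this)
    (fun y hy S hS => by
      obtain ⟨τ, hτ, h⟩ := step N hN 𝒟 δ e hG hy S hS
      exact ⟨τ, hτ, fun m => by
        obtain ⟨a, ha, S', h1, h2, h3, h4⟩ := h m
        exact ⟨a, ha, S', h1, h2, h3, h4⟩⟩)
    S0
    (meas_comp hr fun q : N => ((⟨q.1.restr (Iic δ), hN.restr _ q.2 _ hIic,
      Cond.restr_below _ _⟩, 0) : Pos N δ × ℕ))
    (fun y y' h => by
      have := hrd y y' h
      simp only [hS0, this])
    (fun y hy => by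
      show ((r y).1.restr (Iic δ)).restr (Iio δ) ∈ G y
      apply hG.up y _ (hrG y hy) _ (hN.restr _ (hN.restr _ (r y).2 _ hIic) _ hIio)
        (Cond.restr_below _ _)
      apply le_of_T_eq
      intro i y'
      rw [restr_restr_T hsub])
  -- the number of the state
  have hnum : ∀ y ∈ p'.body, ∀ n, (St n y).2 = n := by
    intro y hy n
    induction n with
    | zero => rw [hSt0]
    | succ n ih =>
      have := (hStb y hy n).2.1.1
      rw [this, ih]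
  have hanti : ∀ y ∈ p'.body, ∀ n m, n ≤ m → (St m y).1.1 ≤ (St n y).1.1 := by
    intro y hy n m hnm
    induction m, hnm using Nat.le_induction with
    | base => exact le_refl _
    | succ m _ ih => exact ((hStb y hy m).2.2.1).trans ih
  refine ⟨p', fun y => {s | s ∈ N ∧ s.Below (Iic δ) ∧ ∃ n, (St n y).1.1 ≤ s},
    ⟨hB, ?_, ?_, ?_, ?_, ?_, ?_⟩, fun i hi y => hT i hi y, ?_⟩
  · intro y s hs
    exact ⟨hs.1, hs.2.1⟩
  · rintro y s ⟨_, _, n, hn⟩ t ht1 ht2 hst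
    exact ⟨ht1, ht2, n, hn.trans hst⟩
  · intro y y' h
    have : ∀ n, St n y = St n y' := fun n => hStd n y y' h
    simp only [this]
  · intro s
    by_cases hs : s ∈ N ∧ s.Below (Iic δ)
    · have : {y | s ∈ {s | s ∈ N ∧ s.Below (Iic δ) ∧ ∃ n, (St n y).1.1 ≤ s}} =
          ⋃ n, {y | (St n y).1.1 ≤ s} := by
        ext y
        simp [hs.1, hs.2]
      rw [this]
      exact MeasurableSet.iUnion fun n => meas_set (hStm n) fun S => S.1.1 ≤ s
    · have : {y | s ∈ {s | s ∈ N ∧ s.Below (Iic δ) ∧ ∃ n, (St n y).1.1 ≤ s}} = ∅ := by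
        ext y
        simp only [Set.mem_ofPred_eq, Set.mem_empty_iff_false, iff_false]
        rintro ⟨h1, h2, _⟩
        exact hs ⟨h1, h2⟩
      rw [this]
      exact MeasurableSet.empty
  · rintro y hy s ⟨_, _, n, hn⟩
    apply hn
    rw [(St n y).1.2.2.body_eq]
    exact (hStb y hy n).2.2.2
  · rintro P hP y hy ⟨_, _, n, hn⟩ E hE hd
    obtain ⟨m, hm, hem⟩ := heK P hP E hE n
    obtain ⟨g, hg, hgP, hgE, hle⟩ := (hStb y hy m).2.1.2 P E (by rw [hnum y hy m]; exact hem) hP hE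
      ((hanti y hy n m hm).trans hn) hd
    exact ⟨g, hg, hgP, hgE, hN.restr _ hg _ hIic, Cond.restr_below _ _, m + 1, hle⟩
  · intro y hy
    refine ⟨hN.restr _ (r y).2 _ hIic, Cond.restr_below _ _, 0, ?_⟩
    rw [hSt0]

end Pool.Agent.Men.RR.H32
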