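import Pool.Agent.Helper32_Men.Small

/-!
# Squad MEN, module RW: countably many names at the same time
-/

open MeasureTheory Set

namespace Pool.Agent.Men.RR.H32

theorem list_choose {X : Type} {N : Set X} {V : X → Bool → Prop} (F : List X)
    (h : ∀ s ∈ F, s ∈ N ∧ ∃ μ, V s μ) :
    ∃ l : List (N × Bool), (∀ t ∈ l, V t.1.1 t.2) ∧ ∀ s ∈ F, ∃ t ∈ l, t.1.1 = s := by
  induction F with
  | nil => exact ⟨[], by simp, by simp⟩
  | cons a F ih =>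
    obtain ⟨l, h1, h2⟩ := ih fun s hs => h s (List.mem_cons_of_mem _ hs)
    obtain ⟨ha, μ, hμ⟩ := h a List.mem_cons_self
    refine ⟨(⟨a, ha⟩, μ) :: l, ?_, ?_⟩
    · intro t ht
      rcases List.mem_cons.1 ht with rfl | ht
      · exact hμ
      · exact h1 t ht
    · intro s hs
      rcases List.mem_cons.1 hs with rfl | hs
      · exact ⟨(⟨s, ha⟩, μ), List.mem_cons_self, rfl⟩
      · obtain ⟨t, ht, h3⟩ := h2 s hs
        exact ⟨t, List.mem_cons_of_mem _ ht, h3⟩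

/-- An infinite set which is almost contained in all the sets of a decreasing sequence. -/
theorem exists_pseudo {b : ℕ → Set ℕ} (hinf : ∀ m, (b m).Infinite) :
    ∃ k : ℕ → ℕ, StrictMono k ∧ ∀ m, k m ∈ b m := by
  classical
  have h1 : ∀ m n : ℕ, ∃ k ∈ b m, n < k := fun m n => (hinf m).exists_gt n
  choose g hg1 hg2 using h1
  let k : ℕ → ℕ := fun m => Nat.rec (g 0 0) (fun m km => g (m + 1) km) m
  have hk : ∀ m, k (m + 1) = g (m + 1) (k m) := fun m => rfl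
  refine ⟨k, strictMono_nat_of_lt_succ fun m => ?_, fun m => ?_⟩
  · rw [hk]
    exact hg2 _ _
  · cases m with
    | zero => exact hg1 0 0
    | succ m => rw [hk]; exact hg1 _ _

theorem rw (hAbs : AbsStmt) (hRel : RelStmt) (hHull : HullStmt) (hClo : CloStmt)
    (hMcs : McsStmt) : RwStmt := by
  classical
  intro I Λ _ _ _ _ _ L hL hReap F hFm hFd p s hpL B hB
  -- the choice from the reaping property
  have key : ∀ (i : ℕ) (q : Cond ℕ Λ) (t : Cond (Fin 2) I) (b : Set ℕ),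
      ∃ (q' : Cond ℕ Λ) (t' : Cond (Fin 2) I) (b' : Set ℕ), q.Below L → b.Infinite →
        q' ≤ q ∧ q'.Below L ∧ t' ≤ t ∧ b' ⊆ b ∧ b'.Infinite ∧ ∃ μ : Bool,
          ∀ k ∈ b', ∀ y ∈ q'.body, ∀ x ∈ t'.body, ((y, x) ∈ F i k ↔ μ = true) := by
    intro i q t b
    by_cases h : q.Below L ∧ b.Infinite
    · obtain ⟨q', h1, h2, t', h3, b', h4, h5, μ, h6⟩ :=
        hReap (F i) (hFm i) (hFd i) q t h.1 b h.2
      exact ⟨q', t', b', fun _ _ => ⟨h1, h2, h3, h4, h5, μ, h6⟩⟩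
    · exact ⟨q, t, b, fun h1 h2 => (h ⟨h1, h2⟩).elim⟩
  choose fq ft fb hf using key
  obtain ⟨OpS, hOpS⟩ := hAbs I
  obtain ⟨OpM, hOpM⟩ := hClo.1 Λ
  obtain ⟨N, N', BB, hNc, hN'c, hBBc, hsN, hpN, hBB, hcl⟩ := hHull (Cond (Fin 2) I) (Cond ℕ Λ)
    (Set ℕ)
    (fun k a a' q _ b => if k.unpair.1 = 0 then OpS k.unpair.2 a a' else ft k.unpair.2 q a b)
    (fun k a _ q q' b => if k.unpair.1 = 0 then OpM k.unpair.2 q q' else fq k.unpair.2 q a b)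
    (fun k a _ q _ b => fb k.unpair.2 q a b)
    {s} {p} {B} (countable_singleton s) (countable_singleton p) (countable_singleton B)
  have hsN' : s ∈ N := hsN rfl
  have hpN' : p ∈ N' := hpN rfl
  have hBB' : B ∈ BB := hBB rfl
  have hNop : ∀ k, ∀ a ∈ N, ∀ a' ∈ N, OpS k a a' ∈ N := by
    intro k a ha a' ha'
    have := (hcl (Nat.pair 0 k) a ha a' ha' p hpN' p hpN' B hBB').1
    simpa using this
  have hN'op : ∀ k, ∀ a ∈ N', ∀ a' ∈ N', OpM k a a' ∈ N' := by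
    intro k a ha a' ha'
    have := (hcl (Nat.pair 0 k) s hsN' s hsN' a ha a' ha' B hBB').2.1
    simpa using this
  have hch : ∀ i, ∀ a ∈ N, ∀ q ∈ N', ∀ b ∈ BB, ft i q a b ∈ N ∧ fq i q a b ∈ N' ∧
      fb i q a b ∈ BB := by
    intro i a ha q hq b hb
    have := hcl (Nat.pair 1 i) a ha a ha q hq q hq b hb
    simpa using this
  have hCloN' : Clo N' := hOpM N' hN'c ⟨p, hpN'⟩ hN'op
  have : Countable N := hNc.to_subtype
  have : Countable N' := hN'c.to_subtype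
  have : Countable BB := hBBc.to_subtype
  -- the preorder of the pairs
  let Q : Type := {q : Cond ℕ Λ × Set ℕ // q ∈ N' ×ˢ BB ∧ q.1.Below L ∧ q.2.Infinite ∧ q.2 ⊆ B}
  have : Countable Q := ((hN'c.prod hBBc).mono (fun _ h => h.1 :
    {q : Cond ℕ Λ × Set ℕ | q ∈ N' ×ˢ BB ∧ q.1.Below L ∧ q.2.Infinite ∧ q.2 ⊆ B} ⊆ _)).to_subtype
  let E : ℕ → Cond (Fin 2) I → Q → Prop := fun i t q =>
    ∃ μ : Bool, ∀ k ∈ q.1.2, ∀ y ∈ q.1.1.body, ∀ x ∈ t.body, ((y, x) ∈ F i k ↔ μ = true)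
  obtain ⟨s1, hs1, hcov⟩ := hOpS Q N hNc hNop E
    (by
      rintro k t _ t' _ q q' ⟨μ, h⟩ ht hq
      exact ⟨μ, fun i hi y hy x hx => h i (hq.2 hi) y (hq.1 hy) x (ht hx)⟩)
    (by
      rintro k t ht ⟨⟨q, b⟩, ⟨hq, hb⟩, hqL, hbi, hbB⟩
      simp only at hq hb hqL hbi hbB
      obtain ⟨h1, h2, h3, h4, h5, μ, h6⟩ := hf k q t b hqL hbi
      obtain ⟨m1, m2, m3⟩ := hch k t ht q hq b hb
      exact ⟨ft k q t b, m1, h3, ⟨(fq k q t b, fb k q t b), ⟨m2, m3⟩, h2, h5, h4.trans hbB⟩,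
        ⟨h1, h4⟩, μ, h6⟩)
    s hsN'
  -- the decreasing sequence of infinite sets
  let Bs : Type := {b : Set ℕ // b ∈ BB ∧ b.Infinite ∧ b ⊆ B}
  let Cs : Type := {q : Cond ℕ Λ // q ∈ N' ∧ q.Below L}
  have : Countable Cs := (hN'c.mono (fun _ h => h.1 : {q | q ∈ N' ∧ q.Below L} ⊆ N')).to_subtype
  have : Nonempty Cs := ⟨⟨p, hpN', hpL⟩⟩
  obtain ⟨e, he⟩ := exists_surjective_nat (ℕ × Cs)
  have hstep : ∀ (b : Bs) (i : ℕ) (q : Cs), ∃ (b' : Bs) (q' : Cs), b'.1 ⊆ b.1 ∧ q'.1 ≤ q.1 ∧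
      ∃ l : List (N × Bool), (∀ t ∈ l, ∀ k ∈ b'.1, ∀ y ∈ q'.1.body, ∀ x ∈ t.1.1.body,
        ((y, x) ∈ F i k ↔ t.2 = true)) ∧ ∀ x ∈ s1.body, ∃ t ∈ l, x ∈ t.1.1.body := by
    rintro ⟨b, hb, hbi, hbB⟩ i ⟨q, hq, hqL⟩
    obtain ⟨⟨⟨q', b'⟩, ⟨hq', hb'⟩, hq'L, hb'i, hb'B⟩, hle, l0, hl0, hl1⟩ :=
      hcov i ⟨(q, b), ⟨hq, hb⟩, hqL, hbi, hbB⟩
    obtain ⟨l, hl2, hl3⟩ := list_choose (N := N)
      (V := fun t μ => ∀ k ∈ b', ∀ y ∈ q'.body, ∀ x ∈ t.body, ((y, x) ∈ F i k ↔ μ = true)) l0 hl0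
    refine ⟨⟨b', hb', hb'i, hb'B⟩, ⟨q', hq', hq'L⟩, hle.2, hle.1, l, hl2, fun x hx => ?_⟩
    obtain ⟨t, ht, hxt⟩ := hl1 x hx
    obtain ⟨t', ht', rfl⟩ := hl3 t ht
    exact ⟨t', ht', hxt⟩
  choose nb nq hnb using hstep
  let bs : ℕ → Bs := fun m => Nat.rec ⟨B, hBB', hB, Subset.rfl⟩ (fun m b => nb b (e m).1 (e m).2) m
  have hbs : ∀ m, bs (m + 1) = nb (bs m) (e m).1 (e m).2 := fun m => rfl
  have hanti : Antitone fun m => (bs m).1 := antitone_nat_of_succ_le fun m => by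
    rw [hbs]
    exact (hnb _ _ _).1
  obtain ⟨kk, hkk, hkkb⟩ := exists_pseudo fun m => (bs m).2.2.1
  -- the dense sets
  let V : ℕ → N' × ℕ × List (N × Bool) → Prop := fun i c =>
    c.1.1.Below L ∧ (∀ t ∈ c.2.2, ∀ k ∈ (bs c.2.1).1, ∀ y ∈ c.1.1.body, ∀ x ∈ t.1.1.body,
      ((y, x) ∈ F i k ↔ t.2 = true)) ∧ ∀ x ∈ s1.body, ∃ t ∈ c.2.2, x ∈ t.1.1.body
  let DD : ℕ → Set (Cond ℕ Λ) := fun i => {g | ∃ c, V i c ∧ c.1.1 = g}
  have hDD : ∀ i, ∀ q ∈ N', q.Below L → ∃ g ∈ N', g ≤ q ∧ g ∈ DD i := by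
    intro i q hq hqL
    obtain ⟨m, hm⟩ := he (i, ⟨q, hq, hqL⟩)
    obtain ⟨h1, h2, l, h3, h4⟩ := hnb (bs m) i ⟨q, hq, hqL⟩
    have hb : bs (m + 1) = nb (bs m) i ⟨q, hq, hqL⟩ := by
      rw [hbs, hm]
    refine ⟨(nq (bs m) i ⟨q, hq, hqL⟩).1, (nq (bs m) i ⟨q, hq, hqL⟩).2.1, h2,
      (⟨(nq (bs m) i ⟨q, hq, hqL⟩).1, (nq (bs m) i ⟨q, hq, hqL⟩).2.1⟩, m + 1, l),
      ⟨(nq (bs m) i ⟨q, hq, hqL⟩).2.2, ?_, h4⟩, rfl⟩
    intro t ht k hk
    apply h3 t ht k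
    rw [← hb]
    exact hk
  obtain ⟨hG0, hR⟩ := hRel Λ N' hCloN' (Set.range DD) (Set.countable_range DD)
  obtain ⟨p1, G, hG, -, hpG⟩ := hR ∅ L (fun _ _ _ h => h.elim) hL (Set.empty_subset _)
    _ _ hG0 (fun _ => ⟨p, hpN'⟩)
    (fun q => by
      by_cases h : (⟨p, hpN'⟩ : N') = q
      · simp [h]
      · simp [h])
    (fun _ _ _ => rfl)
    (fun y _ => ⟨hCloN'.restr _ hpN' _ (fun _ _ _ h => h.elim), Cond.restr_below _ _⟩)
  have hon : ∀ y ∈ p1.body, ∀ g : Cond ℕ Λ, g.Below L → g.restr L ∈ G y → y ∈ g.body := by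
    intro y hy g hg h
    have := hG.pt y hy _ h
    rwa [Cond.restr_body, ← hg.body_eq] at this
  have hp1 : p1 ≤ p := fun y hy => hon y hy p hpL (hpG y hy)
  have hex : ∀ i, ∀ y ∈ p1.body, ∃ c, V i c ∧ c.1.1.restr L ∈ G y := by
    intro i y hy
    obtain ⟨g, hg, -, ⟨c, hc, rfl⟩, hgG⟩ := hG.gen p hpN' y hy (hpG y hy) (DD i) ⟨i, rfl⟩
      (by
        intro h hh hhL hhle
        obtain ⟨g, hg, hgh, hgD⟩ := hDD i h hh hhL
        refine ⟨g, hg, hgh.trans (Cond.le_glue (le_refl _) (hhle.trans ?_)), hgD⟩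
        exact hpL.restr_le)
    exact ⟨c, hc, hgG⟩
  have : Nonempty (N' × ℕ × List (N × Bool)) := ⟨(⟨p, hpN'⟩, 0, [])⟩
  have hmcs := fun i => hMcs (Pt ℕ Λ) (N' × ℕ × List (N × Bool))
    (fun y c => V i c ∧ c.1.1.restr L ∈ G y) (fun c => by
      by_cases h : V i c
      · simp only [h, true_and]
        exact hG.meas _
      · simp only [h, false_and]
        exact MeasurableSet.empty)
  choose f hfm hfV hfd using hmcs
  have hfdep : ∀ i, DepFun L (f i) := by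
    intro i y y' h
    apply hfd
    intro c
    rw [hG.dep y y' h]
  refine ⟨p1, hp1, hG.below, s1, hs1, Set.range kk, ?_,
    Set.infinite_range_of_injective hkk.injective,
    fun i => {z | ∃ t ∈ (f i z.1).2.2, z.2 ∈ t.1.1.body ∧ t.2 = true},
    fun i y => kk (f i y).2.1, ?_, ?_, ?_, ?_, ?_⟩
  · rintro _ ⟨m, rfl⟩
    exact (bs m).2.2.2 (hkkb m)
  · intro i
    have : {z : Pt ℕ Λ × Pt (Fin 2) I | ∃ t ∈ (f i z.1).2.2, z.2 ∈ t.1.1.body ∧ t.2 = true} =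
        ⋃ c : N' × ℕ × List (N × Bool), ⋃ t : N × Bool, {z | f i z.1 = c ∧ (t ∈ c.2.2 ∧ t.2 = true)
          ∧ z.2 ∈ t.1.1.body} := by
      ext z
      simp only [Set.mem_ofPred_eq, Set.mem_iUnion]
      constructor
      · rintro ⟨t, ht, h1, h2⟩
        exact ⟨_, t, rfl, ⟨ht, h2⟩, h1⟩
      · rintro ⟨c, t, rfl, ⟨ht, h2⟩, h1⟩
        exact ⟨t, ht, h1, h2⟩
    show MeasurableSet {z : Pt ℕ Λ × Pt (Fin 2) I |
      ∃ t ∈ (f i z.1).2.2, z.2 ∈ t.1.1.body ∧ t.2 = true}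
    rw [this]
    refine MeasurableSet.iUnion fun c => MeasurableSet.iUnion fun t => ?_
    by_cases h : t ∈ c.2.2 ∧ t.2 = true
    · simp only [h, true_and]
      exact (measurable_fst (hfm i c)).inter (measurable_snd t.1.1.measurableSet_body)
    · simp only [h, false_and, and_false]
      exact MeasurableSet.empty
  · intro i y y' x h
    simp only [Set.mem_ofPred_eq, hfdep i y y' h]
  · intro i
    exact meas_measurable (meas_comp (hfm i) fun c => kk c.2.1)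
  · intro i y y' h
    simp only [hfdep i y y' h]
  · rintro i y hy x hx _ ⟨j, rfl⟩ hthr
    obtain ⟨⟨hcL, hc1, hc2⟩, hcG⟩ := hfV i y (hex i y hy)
    have hyc : y ∈ (f i y).1.1.body := hon y hy _ hcL hcG
    have hj : (f i y).2.1 ≤ j := hkk.le_iff_le.1 hthr
    have hkb : kk j ∈ (bs (f i y).2.1).1 := hanti hj (hkkb j)
    simp only [Set.mem_ofPred_eq]
    constructor
    · intro h
      obtain ⟨t, ht, hxt⟩ := hc2 x hx
      exact ⟨t, ht, hxt, (hc1 t ht _ hkb y hyc x hxt).1 h⟩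
    · rintro ⟨t, ht, hxt, h⟩
      exact (hc1 t ht _ hkb y hyc x hxt).2 h

end Pool.Agent.Men.RR.H32
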