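import Pool.Agent.Helper22_Men.Stmts

/-!
# Squad MEN: small facts used by the modules REL1, MILS, RW
-/

open MeasureTheory Set

namespace Pool.Agent.Men.RR.H32

section
variable {D : Type} [MeasurableSpace D] [Alph D] {I : Type} [LinearOrder I]

/-- Two conditions with the same trees have the same points. -/
theorem le_of_T_eq {q p : Cond D I} (h : ∀ i y, q.T i y = p.T i y) : q ≤ p :=
  Cond.le_of_T fun y _ i => (h i y).le

/-- Restricting twice. -/
theorem restr_restr_T {J J' : Set I} (h : J ⊆ J') (p : Cond D I) (i : I) (y : Pt D I) :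
    ((p.restr J').restr J).T i y = (p.restr J).T i y := by
  by_cases hi : i ∈ J
  · rw [Cond.restr_T _ hi, Cond.restr_T _ hi, Cond.restr_T _ (h hi)]
  · rw [Cond.restr_T' _ hi, Cond.restr_T' _ hi]

end

/-- Functions with countably many values and measurable fibres. -/
theorem meas_comp {α β γ : Type} [MeasurableSpace α] [Countable β] {f : α → β}
    (hf : Meas f) (g : β → γ) : Meas fun a => g (f a) := by
  intro c
  have : {a | g (f a) = c} = ⋃ b : {b : β // g b = c}, {a | f a = b.1} := by
    ext a
    simp only [Set.mem_ofPred_eq, Set.mem_iUnion, Subtype.exists, exists_prop]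
    constructor
    · intro h
      exact ⟨f a, h, rfl⟩
    · rintro ⟨b, h1, h2⟩
      rw [h2, h1]
  rw [this]
  exact MeasurableSet.iUnion fun b => hf b.1

theorem meas_set {α β : Type} [MeasurableSpace α] [Countable β] {f : α → β}
    (hf : Meas f) (V : β → Prop) : MeasurableSet {a | V (f a)} := by
  have : {a | V (f a)} = ⋃ b : {b : β // V b}, {a | f a = b.1} := by
    ext a
    simp only [Set.mem_ofPred_eq, Set.mem_iUnion, Subtype.exists, exists_prop]
    constructor
    · intro h
      exact ⟨f a, h, rfl⟩
    · rintro ⟨b, h1, h2⟩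
      rw [h2]; exact h1
  rw [this]
  exact MeasurableSet.iUnion fun b => hf b.1

theorem meas_measurable {α β : Type} [MeasurableSpace α] [Countable β] [MeasurableSpace β]
    {f : α → β} (hf : Meas f) : Measurable f := by
  intro B _
  exact meas_set hf fun b => b ∈ B

end Pool.Agent.Men.RR.H32
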